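import Pool.Agent.H7.Ell.Core

/-!
# Averaging over the Galois group
-/

set_option autoImplicit false

open Polynomial IntermediateField Module Matrix

namespace Pool.Agent.H7.Ell

variable {V : Type} {L : Type} [Field L] [Algebra ℚ L]

/-- the entry -/
noncomputable def XX (w : V → L) (i j : V) : L := (w i * (w j)⁻¹ + w j * (w i)⁻¹) / 2

/-- the averaged matrix -/
noncomputable def YY (w : V → L) : Matrix V V ℚ :=
  fun i j => Algebra.trace ℚ L (XX w i j) / (finrank ℚ L : ℚ)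

theorem conj_eq_inv {z : ℂ} (hz : ‖z‖ = 1) : (starRingEnd ℂ) z = z⁻¹ := by
  rw [Complex.inv_def, Complex.normSq_eq_norm_sq, hz]
  simp

theorem XX_apply (ι : L →+* ℂ) (w : V → L) (hw : ∀ (σ : L ≃ₐ[ℚ] L) i, ‖ι (σ (w i))‖ = 1)
    (σ : L ≃ₐ[ℚ] L) (i j : V) : ι (σ (XX w i j)) =
      (((ι (σ (w i))).re * (ι (σ (w j))).re + (ι (σ (w i))).im * (ι (σ (w j))).im : ℝ) : ℂ) := by
  unfold XX
  simp only [map_div₀, map_add, map_mul, map_inv₀, map_ofNat]
  rw [← conj_eq_inv (hw σ i), ← conj_eq_inv (hw σ j)]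
  apply Complex.ext
  · simp
    ring
  · simp
    ring

theorem YY_apply [FiniteDimensional ℚ L] [IsGalois ℚ L] (ι : L →+* ℂ) (w : V → L)
    (hw : ∀ (σ : L ≃ₐ[ℚ] L) i, ‖ι (σ (w i))‖ = 1) (i j : V) :
    ((YY w i j : ℚ) : ℝ) = (finrank ℚ L : ℝ)⁻¹ * ∑ σ : L ≃ₐ[ℚ] L,
      ((ι (σ (w i))).re * (ι (σ (w j))).re + (ι (σ (w i))).im * (ι (σ (w j))).im) := by
  have h := congrArg ι (trace_eq_sum_automorphisms (K := ℚ) (L := L) (XX w i j))
  rw [map_sum] at h
  have h2 : ι (algebraMap ℚ L (Algebra.trace ℚ L (XX w i j))) =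
      ((Algebra.trace ℚ L (XX w i j) : ℚ) : ℂ) := by
    have : ι.comp (algebraMap ℚ L) = algebraMap ℚ ℂ := Subsingleton.elim _ _
    exact congrFun (congrArg DFunLike.coe this) _
  rw [h2] at h
  have h3 : ((Algebra.trace ℚ L (XX w i j) : ℚ) : ℝ) = ∑ σ : L ≃ₐ[ℚ] L,
      ((ι (σ (w i))).re * (ι (σ (w j))).re + (ι (σ (w i))).im * (ι (σ (w j))).im) := by
    apply Complex.ofReal_injective
    rw [Complex.ofReal_ratCast, h, Complex.ofReal_sum]
    exact Finset.sum_congr rfl fun σ _ => XX_apply ι w hw σ i j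
  unfold YY
  push_cast
  rw [h3, div_eq_inv_mul]

theorem YY_psd [Fintype V] [FiniteDimensional ℚ L] [IsGalois ℚ L] (ι : L →+* ℂ) (w : V → L)
    (hw : ∀ (σ : L ≃ₐ[ℚ] L) i, ‖ι (σ (w i))‖ = 1) :
    ((YY w).map (fun q : ℚ => (q : ℝ))).PosSemidef := by
  have h : (YY w).map (fun q : ℚ => (q : ℝ)) = (finrank ℚ L : ℝ)⁻¹ • ∑ σ : L ≃ₐ[ℚ] L,
      (vecMulVec (fun i => (ι (σ (w i))).re) (star fun i => (ι (σ (w i))).re) +
       vecMulVec (fun i => (ι (σ (w i))).im) (star fun i => (ι (σ (w i))).im)) := by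
    ext i j
    rw [Matrix.map_apply, YY_apply ι w hw, Matrix.smul_apply, smul_eq_mul, Matrix.sum_apply]
    rfl
  rw [h]
  refine Matrix.PosSemidef.smul (Matrix.posSemidef_sum _ fun σ _ => ?_) (by positivity)
  exact (posSemidef_vecMulVec_self_star _).add (posSemidef_vecMulVec_self_star _)

theorem YY_diag [FiniteDimensional ℚ L] (w : V → L) (i : V) (h0 : w i ≠ 0) : YY w i i = 1 := by
  have hp : (finrank ℚ L : ℚ) ≠ 0 := by
    exact_mod_cast (finrank_pos (R := ℚ) (M := L)).ne'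
  have hx : XX w i i = algebraMap ℚ L 1 := by
    unfold XX
    rw [mul_inv_cancel₀ h0, map_one]
    have : (2 : L) ≠ 0 := by
      have : CharZero L := algebraRat.charZero L
      exact two_ne_zero
    field_simp
    norm_num
  unfold YY
  rw [hx, Algebra.trace_algebraMap]
  simp [hp]

theorem YY_edge [FiniteDimensional ℚ L] (w : V → L) (i j : V) (x : ℚ)
    (h : XX w i j = algebraMap ℚ L x) : YY w i j = x := by
  have hp : (finrank ℚ L : ℚ) ≠ 0 := by
    exact_mod_cast (finrank_pos (R := ℚ) (M := L)).ne'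
  unfold YY
  rw [h, Algebra.trace_algebraMap, nsmul_eq_mul]
  field_simp

theorem YY_den [FiniteDimensional ℚ L] (w : V → L) (N : ℕ)
    (h1 : ∀ i, IsIntegral ℤ ((N : L) * w i)) (h2 : ∀ i, IsIntegral ℤ ((N : L) * (w i)⁻¹))
    (i j : V) : ∃ k : ℤ, ((2 * finrank ℚ L * N ^ 2 : ℕ) : ℚ) * YY w i j = k := by
  have hp : (finrank ℚ L : ℚ) ≠ 0 := by
    exact_mod_cast (finrank_pos (R := ℚ) (M := L)).ne'
  have : CharZero L := algebraRat.charZero L
  have hI : IsIntegral ℤ ((2 * (N : ℚ) ^ 2) • XX w i j) := by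
    have he : (2 * (N : ℚ) ^ 2) • XX w i j =
        ((N : L) * w i) * ((N : L) * (w j)⁻¹) + ((N : L) * w j) * ((N : L) * (w i)⁻¹) := by
      rw [Algebra.smul_def]
      unfold XX
      simp only [map_mul, map_pow, map_natCast, map_ofNat]
      field_simp
      try ring
    rw [he]
    exact ((h1 i).mul (h2 j)).add ((h1 j).mul (h2 i))
  have ht : IsIntegral ℤ (Algebra.trace ℚ L ((2 * (N : ℚ) ^ 2) • XX w i j)) :=
    Algebra.isIntegral_trace hI
  obtain ⟨k, hk⟩ := IsIntegrallyClosed.isIntegral_iff.1 ht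
  refine ⟨k, ?_⟩
  have hk' : (k : ℚ) = (2 * (N : ℚ) ^ 2) * Algebra.trace ℚ L (XX w i j) := by
    rw [LinearMap.map_smul, smul_eq_mul] at hk
    simpa using hk
  rw [hk']
  unfold YY
  push_cast
  field_simp

end Pool.Agent.H7.Ell
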