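import Mathlib

/-!
# Rational completions from planar completions (MP_13b08e_lc)
-/

set_option autoImplicit false

open Polynomial IntermediateField Module

namespace Pool.Agent.H7.Ell

/-- the quadratic polynomial `X² - 2 x X + 1` -/
noncomputable def qp (x : ℚ) : ℚ[X] := X ^ 2 - C (2 * x) * X + C 1

theorem qp_monic (x : ℚ) : (qp x).Monic := by
  unfold qp
  monicity!

theorem qp_natDegree (x : ℚ) : (qp x).natDegree = 2 := by
  unfold qp
  compute_degree!

theorem qp_aeval {A : Type*} [Field A] [Algebra ℚ A] (x : ℚ) (z : A) :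
    aeval z (qp x) = z ^ 2 - 2 * algebraMap ℚ A x * z + 1 := by
  unfold qp
  simp [map_mul]

theorem root_norm {x : ℝ} (hx : |x| ≤ 1) {z : ℂ} (hz : z ^ 2 - 2 * (x : ℂ) * z + 1 = 0) :
    ‖z‖ = 1 := by
  have hre := congrArg Complex.re hz
  have him := congrArg Complex.im hz
  simp [pow_two] at hre him
  have hx2 : x ^ 2 ≤ 1 := by
    have := abs_le.1 hx
    nlinarith
  have h1 : z.im * (z.re - x) = 0 := by linarith
  have h2 : z.re ^ 2 + z.im ^ 2 = 1 := by
    rcases mul_eq_zero.1 h1 with h | h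
    · rw [h] at hre ⊢
      have h3 : (z.re - x) ^ 2 = x ^ 2 - 1 := by nlinarith
      have h4 : (z.re - x) ^ 2 ≤ 0 := by linarith
      have h5 : z.re - x = 0 := by
        have := sq_nonneg (z.re - x)
        exact pow_eq_zero_iff two_ne_zero |>.1 (le_antisymm h4 this)
      have h6 : z.re = x := by linarith
      have h7 : x ^ 2 = 1 := by rw [h5] at h3; linarith
      rw [h6, h7]; norm_num
    · have h6 : z.re = x := by linarith
      rw [h6] at hre ⊢
      nlinarith
  have h3 : ‖z‖ ^ 2 = 1 := by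
    rw [← Complex.normSq_eq_norm_sq, Complex.normSq_apply]
    nlinarith
  have h4 := norm_nonneg z
  nlinarith

/-- the field generated by the roots of `qp x` -/
noncomputable def fx (x : ℚ) : IntermediateField ℚ ℂ := adjoin ℚ ((qp x).rootSet ℂ)

instance fx_normal (x : ℚ) : Normal ℚ (fx x) :=
  Normal.of_isSplittingField (p := qp x)
    (hFEp := adjoin_rootSet_isSplittingField (IsAlgClosed.splits _))

theorem fx_eq (x : ℚ) : ∃ z : ℂ, aeval z (qp x) = 0 ∧ fx x = ℚ⟮z⟯ := by
  have h0 : ((qp x).map (algebraMap ℚ ℂ)).degree ≠ 0 := by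
    rw [degree_map, degree_eq_natDegree (qp_monic x).ne_zero, qp_natDegree]
    norm_num
  obtain ⟨z, hz⟩ := IsAlgClosed.exists_root _ h0
  have hz' : aeval z (qp x) = 0 := by
    rwa [IsRoot.def, eval_map_algebraMap] at hz
  refine ⟨z, hz', le_antisymm ?_ ?_⟩
  · unfold fx
    rw [adjoin_le_iff]
    intro w hw
    have hw' : aeval w (qp x) = 0 := (mem_rootSet.1 hw).2
    rw [qp_aeval] at hz' hw'
    have h1 : (w - z) * (w - (2 * algebraMap ℚ ℂ x - z)) = 0 := by
      linear_combination hw' - hz'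
    rcases mul_eq_zero.1 h1 with h | h
    · rw [sub_eq_zero.1 h]
      exact mem_adjoin_simple_self ℚ z
    · rw [sub_eq_zero.1 h]
      have h2 : (2 : ℂ) * algebraMap ℚ ℂ x = algebraMap ℚ ℂ (2 * x) := by simp
      rw [h2]
      exact sub_mem (_root_.algebraMap_mem _ _) (mem_adjoin_simple_self ℚ z)
  · rw [adjoin_simple_le_iff]
    exact subset_adjoin ℚ _ (mem_rootSet.2 ⟨(qp_monic x).ne_zero, hz'⟩)

theorem fx_fd (x : ℚ) : FiniteDimensional ℚ (fx x) ∧ finrank ℚ (fx x) ≤ 2 := by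
  obtain ⟨z, hz, he⟩ := fx_eq x
  have hi : IsIntegral ℚ z := ⟨qp x, qp_monic x, hz⟩
  rw [he]
  refine ⟨adjoin.finiteDimensional hi, ?_⟩
  rw [adjoin.finrank hi, ← qp_natDegree x]
  exact natDegree_le_of_dvd (minpoly.dvd ℚ z hz) (qp_monic x).ne_zero

/-- the field for a finite set of rationals -/
noncomputable def LL (S : Finset ℚ) : IntermediateField ℚ ℂ := ⨆ x ∈ S, fx x

instance LL_normal (S : Finset ℚ) : Normal ℚ (LL S) := by
  have h : LL S = ⨆ x : {x // x ∈ S}, fx x := by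
    unfold LL
    rw [iSup_subtype']
  rw [h]
  have hh : ∀ i : {x // x ∈ S}, @Normal ℚ (fx i) _ _ (IntermediateField.algebra' (fx i)) :=
    fun i => fx_normal i
  exact @IntermediateField.normal_iSup ℚ ℂ _ _ _ _ (fun x : {x // x ∈ S} => fx x) hh

theorem LL_fd (S : Finset ℚ) : FiniteDimensional ℚ (LL S) ∧ finrank ℚ (LL S) ≤ 2 ^ S.card := by
  classical
  induction S using Finset.induction_on with
  | empty =>
    have h : LL ∅ = ⊥ := by simp [LL]
    rw [h]
    refine ⟨inferInstance, ?_⟩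
    simp
  | insert a S ha ih =>
    have h : LL (insert a S) = fx a ⊔ LL S := by
      unfold LL
      rw [Finset.iSup_insert]
    obtain ⟨h1, h2⟩ := fx_fd a
    obtain ⟨h3, h4⟩ := ih
    rw [h, Finset.card_insert_of_notMem ha]
    refine ⟨inferInstance, (finrank_sup_le _ _).trans ?_⟩
    calc finrank ℚ (fx a) * finrank ℚ (LL S) ≤ 2 * 2 ^ S.card := Nat.mul_le_mul h2 h4
      _ = 2 ^ (S.card + 1) := by ring

theorem mem_LL {S : Finset ℚ} {x : ℚ} (hx : x ∈ S) {z : ℂ} (hz : aeval z (qp x) = 0) :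
    z ∈ LL S := by
  have h1 : z ∈ fx x := subset_adjoin ℚ _ (mem_rootSet.2 ⟨(qp_monic x).ne_zero, hz⟩)
  have h2 : fx x ≤ LL S := le_iSup₂_of_le (f := fun x (_ : x ∈ S) => fx x) x hx le_rfl
  exact h2 h1

theorem int_of_root {A : Type*} [Field A] [Algebra ℚ A] {x : ℚ} {z : A}
    (hz : aeval z (qp x) = 0) : IsIntegral ℤ ((x.den : A) * z) := by
  rw [qp_aeval] at hz
  refine ⟨X ^ 2 - C (2 * x.num) * X + C ((x.den : ℤ) ^ 2), by monicity!, ?_⟩
  have hd : (x.den : A) * algebraMap ℚ A x = (x.num : A) := by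
    have h1 : (x.den : ℚ) * x = x.num := by
      rw [mul_comm]; exact Rat.mul_den_eq_num x
    have h2 := congrArg (algebraMap ℚ A) h1
    rw [map_mul] at h2
    simpa using h2
  simp only [eval₂_add, eval₂_sub, eval₂_mul, eval₂_pow, eval₂_X, eval₂_C]
  have h3 : ((algebraMap ℤ A) (2 * x.num)) = 2 * ((x.den : A) * algebraMap ℚ A x) := by
    rw [hd]; simp
  have h4 : (algebraMap ℤ A) ((x.den : ℤ) ^ 2) = (x.den : A) ^ 2 := by simp
  simp only [map_pow, map_mul] at h3 h4 ⊢
  rw [h3, h4]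
  linear_combination ((x.den : A) ^ 2) * hz

theorem root_inv {A : Type*} [Field A] [Algebra ℚ A] {x : ℚ} {z : A}
    (hz : aeval z (qp x) = 0) : z ≠ 0 ∧ aeval z⁻¹ (qp x) = 0 := by
  rw [qp_aeval] at hz ⊢
  have h0 : z ≠ 0 := by
    rintro rfl
    simp at hz
  refine ⟨h0, ?_⟩
  field_simp
  linear_combination hz

end Pool.Agent.H7.Ell
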