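import Mathlib

/-!
# A rational member of an elliptope without rational completions (MP_13b08e_lc)

Nine vertices `a b c d v w z u f = 0 … 8`, fifteen edges.
-/

set_option autoImplicit false

open Matrix

namespace Pool.Agent.H7.Ell.Irr

/-- the edges and the values of `x` -/
def L : List (Fin 9 × Fin 9 × ℚ) :=
  [(0, 2, 1/4), (1, 3, 1/4), (0, 3, -1/4), (1, 2, -1/4), (4, 0, 7/8), (4, 2, -1/4),
   (5, 1, 11/16), (5, 3, 7/8), (4, 5, 0), (1, 6, 5/16), (7, 1, 37/40), (7, 6, 13/20),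
   (0, 7, 4/5), (8, 0, 0), (8, 6, 1/2)]

/-- the graph -/
def G : SimpleGraph (Fin 9) :=
  SimpleGraph.fromRel fun i j => (i, j) ∈ L.map fun t => (t.1, t.2.1)

/-- the vector -/
def x (e : Sym2 (Fin 9)) : ℚ :=
  ((L.find? fun t => decide (s(t.1, t.2.1) = e)).map fun t => t.2.2).getD 0

theorem x_val : ∀ t ∈ L, x s(t.1, t.2.1) = t.2.2 := by decide +kernel

theorem L_ne : ∀ t ∈ L, t.1 ≠ t.2.1 := by decide +kernel

theorem L_adj (t : Fin 9 × Fin 9 × ℚ) (ht : t ∈ L) : G.Adj t.1 t.2.1 :=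
  (SimpleGraph.fromRel_adj _ _ _).2 ⟨L_ne t ht, Or.inl (List.mem_map.2 ⟨t, ht, rfl⟩)⟩

theorem adj_L {i j : Fin 9} (h : G.Adj i j) :
    ∃ t ∈ L, (t.1 = i ∧ t.2.1 = j) ∨ (t.1 = j ∧ t.2.1 = i) := by
  rcases ((SimpleGraph.fromRel_adj _ _ _).1 h).2 with h | h
  · obtain ⟨t, ht, he⟩ := List.mem_map.1 h
    exact ⟨t, ht, Or.inl ⟨congrArg Prod.fst he, congrArg Prod.snd he⟩⟩
  · obtain ⟨t, ht, he⟩ := List.mem_map.1 h
    exact ⟨t, ht, Or.inr ⟨congrArg Prod.fst he, congrArg Prod.snd he⟩⟩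

/-- coordinates in an orthogonal basis (`s = √3`) -/
noncomputable def Cm (s : ℝ) : Fin 9 → Fin 4 → ℝ :=
  ![![(1/2), (1/2), (0), (0)],
    ![(-1/2), (1/2), (0), (0)],
    ![((1/3) * s), (0), (1/2), (0)],
    ![((-1/3) * s), (0), (1/2), (0)],
    ![((1/2) + (-1/6) * s), (1/2), (-1/4), (0)],
    ![((-1/4) + (-1/4) * s), (1/4), (3/8), (0)],
    ![((1) + (-5/24) * s), ((8/61) + (69/488) * s), (0), (1/2)],
    ![((-1/12) * s), ((138/305) + (69/1220) * s), (0), (1/5)],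
    ![((2) + (-11/12) * s), ((16/61) + (-53/244) * s), (0), (1)]]

/-- squared norms of the basis -/
noncomputable def Dm (s : ℝ) : Fin 4 → ℝ :=
  ![((1/2) * s), ((4) + (-1/2) * s), ((4) + (-2/3) * s), ((1339/244) + (-494/183) * s)]

/-- the real completion -/
noncomputable def X (s : ℝ) : Matrix (Fin 9) (Fin 9) ℝ :=
  Matrix.of (Cm s) * Matrix.diagonal (Dm s) * (Matrix.of (Cm s))ᴴ

theorem X_apply (s : ℝ) (i j : Fin 9) : X s i j = Cm s i 0 * Dm s 0 * Cm s j 0 +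
    Cm s i 1 * Dm s 1 * Cm s j 1 + Cm s i 2 * Dm s 2 * Cm s j 2 +
    Cm s i 3 * Dm s 3 * Cm s j 3 := by
  unfold X
  rw [Matrix.mul_apply, Fin.sum_univ_four]
  simp only [Matrix.mul_diagonal, Matrix.conjTranspose_apply, Matrix.of_apply, star_trivial]

theorem e02 (s : ℝ) (hs : s ^ 2 = 3) : X s 0 2 = 1/4 := by
  rw [X_apply]
  show (1/2) * ((1/2) * s) * ((1/3) * s) + (1/2) * ((4) + (-1/2) * s) * (0) + (0) * ((4) + (-2/3) * s) * (1/2) + (0) * ((1339/244) + (-494/183) * s) * (0) = (1/4 : ℝ)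
  linear_combination (1/12) * hs

theorem e13 (s : ℝ) (hs : s ^ 2 = 3) : X s 1 3 = 1/4 := by
  rw [X_apply]
  show (-1/2) * ((1/2) * s) * ((-1/3) * s) + (1/2) * ((4) + (-1/2) * s) * (0) + (0) * ((4) + (-2/3) * s) * (1/2) + (0) * ((1339/244) + (-494/183) * s) * (0) = (1/4 : ℝ)
  linear_combination (1/12) * hs

theorem e03 (s : ℝ) (hs : s ^ 2 = 3) : X s 0 3 = -1/4 := by
  rw [X_apply]
  show (1/2) * ((1/2) * s) * ((-1/3) * s) + (1/2) * ((4) + (-1/2) * s) * (0) + (0) * ((4) + (-2/3) * s) * (1/2) + (0) * ((1339/244) + (-494/183) * s) * (0) = (-1/4 : ℝ)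
  linear_combination (-1/12) * hs

theorem e12 (s : ℝ) (hs : s ^ 2 = 3) : X s 1 2 = -1/4 := by
  rw [X_apply]
  show (-1/2) * ((1/2) * s) * ((1/3) * s) + (1/2) * ((4) + (-1/2) * s) * (0) + (0) * ((4) + (-2/3) * s) * (1/2) + (0) * ((1339/244) + (-494/183) * s) * (0) = (-1/4 : ℝ)
  linear_combination (-1/12) * hs

theorem e40 (s : ℝ) (hs : s ^ 2 = 3) : X s 4 0 = 7/8 := by
  rw [X_apply]
  show ((1/2) + (-1/6) * s) * ((1/2) * s) * (1/2) + (1/2) * ((4) + (-1/2) * s) * (1/2) + (-1/4) * ((4) + (-2/3) * s) * (0) + (0) * ((1339/244) + (-494/183) * s) * (0) = (7/8 : ℝ)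
  linear_combination (-1/24) * hs

theorem e42 (s : ℝ) (hs : s ^ 2 = 3) : X s 4 2 = -1/4 := by
  rw [X_apply]
  show ((1/2) + (-1/6) * s) * ((1/2) * s) * ((1/3) * s) + (1/2) * ((4) + (-1/2) * s) * (0) + (-1/4) * ((4) + (-2/3) * s) * (1/2) + (0) * ((1339/244) + (-494/183) * s) * (0) = (-1/4 : ℝ)
  linear_combination ((1/12) + (-1/36) * s) * hs

theorem e51 (s : ℝ) (hs : s ^ 2 = 3) : X s 5 1 = 11/16 := by
  rw [X_apply]
  show ((-1/4) + (-1/4) * s) * ((1/2) * s) * (-1/2) + (1/4) * ((4) + (-1/2) * s) * (1/2) + (3/8) * ((4) + (-2/3) * s) * (0) + (0) * ((1339/244) + (-494/183) * s) * (0) = (11/16 : ℝ)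
  linear_combination (1/16) * hs

theorem e53 (s : ℝ) (hs : s ^ 2 = 3) : X s 5 3 = 7/8 := by
  rw [X_apply]
  show ((-1/4) + (-1/4) * s) * ((1/2) * s) * ((-1/3) * s) + (1/4) * ((4) + (-1/2) * s) * (0) + (3/8) * ((4) + (-2/3) * s) * (1/2) + (0) * ((1339/244) + (-494/183) * s) * (0) = (7/8 : ℝ)
  linear_combination ((1/24) + (1/24) * s) * hs

theorem e45 (s : ℝ) (hs : s ^ 2 = 3) : X s 4 5 = 0/1 := by
  rw [X_apply]
  show ((1/2) + (-1/6) * s) * ((1/2) * s) * ((-1/4) + (-1/4) * s) + (1/2) * ((4) + (-1/2) * s) * (1/4) + (-1/4) * ((4) + (-2/3) * s) * (3/8) + (0) * ((1339/244) + (-494/183) * s) * (0) = (0/1 : ℝ)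
  linear_combination ((-1/24) + (1/48) * s) * hs

theorem e16 (s : ℝ) (hs : s ^ 2 = 3) : X s 1 6 = 5/16 := by
  rw [X_apply]
  show (-1/2) * ((1/2) * s) * ((1) + (-5/24) * s) + (1/2) * ((4) + (-1/2) * s) * ((8/61) + (69/488) * s) + (0) * ((4) + (-2/3) * s) * (0) + (0) * ((1339/244) + (-494/183) * s) * (1/2) = (5/16 : ℝ)
  linear_combination (49/2928) * hs

theorem e71 (s : ℝ) (hs : s ^ 2 = 3) : X s 7 1 = 37/40 := by
  rw [X_apply]
  show ((-1/12) * s) * ((1/2) * s) * (-1/2) + ((138/305) + (69/1220) * s) * ((4) + (-1/2) * s) * (1/2) + (0) * ((4) + (-2/3) * s) * (0) + (1/5) * ((1339/244) + (-494/183) * s) * (0) = (37/40 : ℝ)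
  linear_combination (49/7320) * hs

theorem e76 (s : ℝ) (hs : s ^ 2 = 3) : X s 7 6 = 13/20 := by
  rw [X_apply]
  show ((-1/12) * s) * ((1/2) * s) * ((1) + (-5/24) * s) + ((138/305) + (69/1220) * s) * ((4) + (-1/2) * s) * ((8/61) + (69/488) * s) + (0) * ((4) + (-2/3) * s) * (0) + (1/5) * ((1339/244) + (-494/183) * s) * (1/2) = (13/20 : ℝ)
  linear_combination ((-20261/446520) + (784/167445) * s) * hs

theorem e07 (s : ℝ) (hs : s ^ 2 = 3) : X s 0 7 = 4/5 := by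
  rw [X_apply]
  show (1/2) * ((1/2) * s) * ((-1/12) * s) + (1/2) * ((4) + (-1/2) * s) * ((138/305) + (69/1220) * s) + (0) * ((4) + (-2/3) * s) * (0) + (0) * ((1339/244) + (-494/183) * s) * (1/5) = (4/5 : ℝ)
  linear_combination (-32/915) * hs

theorem e80 (s : ℝ) (hs : s ^ 2 = 3) : X s 8 0 = 0/1 := by
  rw [X_apply]
  show ((2) + (-11/12) * s) * ((1/2) * s) * (1/2) + ((16/61) + (-53/244) * s) * ((4) + (-1/2) * s) * (1/2) + (0) * ((4) + (-2/3) * s) * (0) + (1) * ((1339/244) + (-494/183) * s) * (0) = (0/1 : ℝ)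
  linear_combination (-32/183) * hs

theorem e86 (s : ℝ) (hs : s ^ 2 = 3) : X s 8 6 = 1/2 := by
  rw [X_apply]
  show ((2) + (-11/12) * s) * ((1/2) * s) * ((1) + (-5/24) * s) + ((16/61) + (-53/244) * s) * ((4) + (-1/2) * s) * ((8/61) + (69/488) * s) + (0) * ((4) + (-2/3) * s) * (0) + (1) * ((1339/244) + (-494/183) * s) * (1/2) = (1/2 : ℝ)
  linear_combination ((-70891/89304) + (3712/33489) * s) * hs

theorem e00 (s : ℝ) (hs : s ^ 2 = 3) : X s 0 0 = 1/1 := by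
  rw [X_apply]
  show (1/2) * ((1/2) * s) * (1/2) + (1/2) * ((4) + (-1/2) * s) * (1/2) + (0) * ((4) + (-2/3) * s) * (0) + (0) * ((1339/244) + (-494/183) * s) * (0) = (1/1 : ℝ)
  linear_combination (0) * hs

theorem e11 (s : ℝ) (hs : s ^ 2 = 3) : X s 1 1 = 1/1 := by
  rw [X_apply]
  show (-1/2) * ((1/2) * s) * (-1/2) + (1/2) * ((4) + (-1/2) * s) * (1/2) + (0) * ((4) + (-2/3) * s) * (0) + (0) * ((1339/244) + (-494/183) * s) * (0) = (1/1 : ℝ)
  linear_combination (0) * hs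

theorem e22 (s : ℝ) (hs : s ^ 2 = 3) : X s 2 2 = 1/1 := by
  rw [X_apply]
  show ((1/3) * s) * ((1/2) * s) * ((1/3) * s) + (0) * ((4) + (-1/2) * s) * (0) + (1/2) * ((4) + (-2/3) * s) * (1/2) + (0) * ((1339/244) + (-494/183) * s) * (0) = (1/1 : ℝ)
  linear_combination ((1/18) * s) * hs

theorem e33 (s : ℝ) (hs : s ^ 2 = 3) : X s 3 3 = 1/1 := by
  rw [X_apply]
  show ((-1/3) * s) * ((1/2) * s) * ((-1/3) * s) + (0) * ((4) + (-1/2) * s) * (0) + (1/2) * ((4) + (-2/3) * s) * (1/2) + (0) * ((1339/244) + (-494/183) * s) * (0) = (1/1 : ℝ)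
  linear_combination ((1/18) * s) * hs

theorem e44 (s : ℝ) (hs : s ^ 2 = 3) : X s 4 4 = 1/1 := by
  rw [X_apply]
  show ((1/2) + (-1/6) * s) * ((1/2) * s) * ((1/2) + (-1/6) * s) + (1/2) * ((4) + (-1/2) * s) * (1/2) + (-1/4) * ((4) + (-2/3) * s) * (-1/4) + (0) * ((1339/244) + (-494/183) * s) * (0) = (1/1 : ℝ)
  linear_combination ((-1/12) + (1/72) * s) * hs

theorem e55 (s : ℝ) (hs : s ^ 2 = 3) : X s 5 5 = 1/1 := by
  rw [X_apply]
  show ((-1/4) + (-1/4) * s) * ((1/2) * s) * ((-1/4) + (-1/4) * s) + (1/4) * ((4) + (-1/2) * s) * (1/4) + (3/8) * ((4) + (-2/3) * s) * (3/8) + (0) * ((1339/244) + (-494/183) * s) * (0) = (1/1 : ℝ)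
  linear_combination ((1/16) + (1/32) * s) * hs

theorem e66 (s : ℝ) (hs : s ^ 2 = 3) : X s 6 6 = 1/1 := by
  rw [X_apply]
  show ((1) + (-5/24) * s) * ((1/2) * s) * ((1) + (-5/24) * s) + ((8/61) + (69/488) * s) * ((4) + (-1/2) * s) * ((8/61) + (69/488) * s) + (0) * ((4) + (-2/3) * s) * (0) + (1/2) * ((1339/244) + (-494/183) * s) * (1/2) = (1/1 : ℝ)
  linear_combination ((-26239/178608) + (392/33489) * s) * hs

theorem e77 (s : ℝ) (hs : s ^ 2 = 3) : X s 7 7 = 1/1 := by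
  rw [X_apply]
  show ((-1/12) * s) * ((1/2) * s) * ((-1/12) * s) + ((138/305) + (69/1220) * s) * ((4) + (-1/2) * s) * ((138/305) + (69/1220) * s) + (0) * ((4) + (-2/3) * s) * (0) + (1/5) * ((1339/244) + (-494/183) * s) * (1/5) = (1/1 : ℝ)
  linear_combination ((-4761/372100) + (1568/837225) * s) * hs

theorem e88 (s : ℝ) (hs : s ^ 2 = 3) : X s 8 8 = 1/1 := by
  rw [X_apply]
  show ((2) + (-11/12) * s) * ((1/2) * s) * ((2) + (-11/12) * s) + ((16/61) + (-53/244) * s) * ((4) + (-1/2) * s) * ((16/61) + (-53/244) * s) + (0) * ((4) + (-2/3) * s) * (0) + (1) * ((1339/244) + (-494/183) * s) * (1) = (1/1 : ℝ)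
  linear_combination ((-70891/44652) + (13280/33489) * s) * hs

theorem X_psd (s : ℝ) (h0 : 0 ≤ s) (h2 : s ≤ 2) : (X s).PosSemidef := by
  refine (Matrix.PosSemidef.diagonal ?_).mul_mul_conjTranspose_same _
  intro k
  fin_cases k
  · show (0 : ℝ) ≤ (1/2) * s
    linarith
  · show (0 : ℝ) ≤ (4) + (-1/2) * s
    linarith
  · show (0 : ℝ) ≤ (4) + (-2/3) * s
    linarith
  · show (0 : ℝ) ≤ (1339/244) + (-494/183) * s
    linarith

theorem X_edge (s : ℝ) (hs : s ^ 2 = 3) : ∀ t ∈ L, X s t.1 t.2.1 = (t.2.2 : ℝ) := by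
  intro t ht
  simp only [L, List.mem_cons, List.mem_nil_iff, or_false] at ht
  rcases ht with rfl | rfl | rfl | rfl | rfl | rfl | rfl | rfl | rfl | rfl | rfl | rfl | rfl |
    rfl | rfl
  · rw [e02 s hs]; norm_num
  · rw [e13 s hs]; norm_num
  · rw [e03 s hs]; norm_num
  · rw [e12 s hs]; norm_num
  · rw [e40 s hs]; norm_num
  · rw [e42 s hs]; norm_num
  · rw [e51 s hs]; norm_num
  · rw [e53 s hs]; norm_num
  · rw [e45 s hs]; norm_num
  · rw [e16 s hs]; norm_num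
  · rw [e71 s hs]; norm_num
  · rw [e76 s hs]; norm_num
  · rw [e07 s hs]; norm_num
  · rw [e80 s hs]; norm_num
  · rw [e86 s hs]; norm_num

theorem X_diag (s : ℝ) (hs : s ^ 2 = 3) (i : Fin 9) : X s i i = 1 := by
  fin_cases i
  · exact (e00 s hs).trans (by norm_num)
  · exact (e11 s hs).trans (by norm_num)
  · exact (e22 s hs).trans (by norm_num)
  · exact (e33 s hs).trans (by norm_num)
  · exact (e44 s hs).trans (by norm_num)
  · exact (e55 s hs).trans (by norm_num)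
  · exact (e66 s hs).trans (by norm_num)
  · exact (e77 s hs).trans (by norm_num)
  · exact (e88 s hs).trans (by norm_num)

/-- there is a real completion -/
theorem exists_real : ∃ X : Matrix (Fin 9) (Fin 9) ℝ, X.PosSemidef ∧ (∀ i, X i i = 1) ∧
    ∀ i j, G.Adj i j → X i j = (x s(i, j) : ℝ) := by
  have hs : (Real.sqrt 3) ^ 2 = 3 := Real.sq_sqrt (by norm_num)
  have h0 := Real.sqrt_nonneg 3
  have h2 : Real.sqrt 3 ≤ 2 := by nlinarith
  have hp := X_psd (Real.sqrt 3) h0 h2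
  refine ⟨X (Real.sqrt 3), hp, X_diag _ hs, fun i j h => ?_⟩
  obtain ⟨t, ht, ⟨rfl, rfl⟩ | ⟨rfl, rfl⟩⟩ := adj_L h
  · rw [X_edge _ hs t ht, x_val t ht]
  · have h1 : X (Real.sqrt 3) t.2.1 t.1 = X (Real.sqrt 3) t.1 t.2.1 := by
      have := hp.1.apply t.1 t.2.1
      simpa using this
    rw [h1, X_edge _ hs t ht, Sym2.eq_swap, x_val t ht]

section
variable {n : ℕ} {M : Matrix (Fin n) (Fin n) ℝ}

theorem symm_of (hM : M.PosSemidef) (i j : Fin n) : M j i = M i j := by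
  have := hM.1.apply i j
  simpa using this

theorem q3_eq (hM : M.PosSemidef) (hd : ∀ i, M i i = 1) (p q r : Fin n) (α β : ℝ) :
    (Pi.single p 1 - α • Pi.single q 1 - β • Pi.single r 1 : Fin n → ℝ) ⬝ᵥ
      (M *ᵥ (Pi.single p 1 - α • Pi.single q 1 - β • Pi.single r 1)) =
    1 + α ^ 2 + β ^ 2 - 2 * α * M p q - 2 * β * M p r + 2 * α * β * M q r := by
  simp only [Matrix.mulVec_sub, Matrix.mulVec_smul, sub_dotProduct,
    dotProduct_sub, smul_dotProduct, dotProduct_smul, Matrix.mulVec_single_one,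
    single_one_dotProduct, Matrix.col_apply, smul_eq_mul, hd]
  rw [symm_of hM p q, symm_of hM p r, symm_of hM q r]
  ring

theorem q3 (hM : M.PosSemidef) (hd : ∀ i, M i i = 1) (p q r : Fin n) (α β : ℝ) :
    0 ≤ 1 + α ^ 2 + β ^ 2 - 2 * α * M p q - 2 * β * M p r + 2 * α * β * M q r := by
  rw [← q3_eq hM hd]
  have := hM.dotProduct_mulVec_nonneg
    (Pi.single p 1 - α • Pi.single q 1 - β • Pi.single r 1 : Fin n → ℝ)
  simpa only [star_trivial] using this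

theorem ker (hM : M.PosSemidef) (hd : ∀ i, M i i = 1) (p q r : Fin n) (α β : ℝ)
    (h : 1 + α ^ 2 + β ^ 2 - 2 * α * M p q - 2 * β * M p r + 2 * α * β * M q r = 0)
    (k : Fin n) : M k p = α * M k q + β * M k r := by
  have h1 := (hM.dotProduct_mulVec_zero_iff
    (Pi.single p 1 - α • Pi.single q 1 - β • Pi.single r 1 : Fin n → ℝ)).1 (by
      rw [star_trivial, q3_eq hM hd, h])
  have h2 := congrFun h1 k
  simp only [Matrix.mulVec_sub, Matrix.mulVec_smul, Matrix.mulVec_single_one, Pi.sub_apply,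
    Pi.smul_apply, Matrix.col_apply, smul_eq_mul, Pi.zero_apply] at h2
  linarith

theorem q4 (hM : M.PosSemidef) (hd : ∀ i, M i i = 1) (a b c d : Fin n) (α β : ℝ) :
    0 ≤ α ^ 2 * (2 - 2 * M a b) + β ^ 2 * (2 - 2 * M c d) +
      2 * α * β * (M a c - M a d - M b c + M b d) := by
  have := hM.dotProduct_mulVec_nonneg
    (α • (Pi.single a 1 - Pi.single b 1) + β • (Pi.single c 1 - Pi.single d 1) : Fin n → ℝ)
  simp only [star_trivial, Matrix.mulVec_add, Matrix.mulVec_sub, Matrix.mulVec_smul,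
    sub_dotProduct, dotProduct_sub, add_dotProduct, dotProduct_add, smul_dotProduct,
    dotProduct_smul, Matrix.mulVec_single_one,
    single_one_dotProduct, Matrix.col_apply, smul_eq_mul, hd] at this
  rw [symm_of hM a b, symm_of hM c d, symm_of hM a c, symm_of hM a d, symm_of hM b c,
    symm_of hM b d] at this
  linarith

end

/-- every real completion has `X a b = 1 - √3 / 4` -/
theorem forced {M : Matrix (Fin 9) (Fin 9) ℝ} (hM : M.PosSemidef) (hd : ∀ i, M i i = 1)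
    (he : ∀ i j, G.Adj i j → M i j = (x s(i, j) : ℝ)) : M 0 1 = 1 - Real.sqrt 3 / 4 := by
  have hv : ∀ t ∈ L, M t.1 t.2.1 = (t.2.2 : ℝ) := fun t ht => by
    rw [he _ _ (L_adj t ht), x_val t ht]
  have h02 := hv (0, 2, 1/4) (by simp [L])
  have h13 := hv (1, 3, 1/4) (by simp [L])
  have h03 := hv (0, 3, -1/4) (by simp [L])
  have h12 := hv (1, 2, -1/4) (by simp [L])
  have h40 := hv (4, 0, 7/8) (by simp [L])
  have h42 := hv (4, 2, -1/4) (by simp [L])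
  have h51 := hv (5, 1, 11/16) (by simp [L])
  have h53 := hv (5, 3, 7/8) (by simp [L])
  have h45 := hv (4, 5, 0) (by simp [L])
  have h16 := hv (1, 6, 5/16) (by simp [L])
  have h71 := hv (7, 1, 37/40) (by simp [L])
  have h76 := hv (7, 6, 13/20) (by simp [L])
  have h07 := hv (0, 7, 4/5) (by simp [L])
  have h80 := hv (8, 0, 0) (by simp [L])
  have h86 := hv (8, 6, 1/2) (by simp [L])
  norm_num at h02 h13 h03 h12 h40 h42 h51 h53 h45 h16 h71 h76 h07 h80 h86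
  -- v = a - c / 2
  have kv := ker hM hd 4 0 2 1 (-1 / 2) (by rw [h40, h42, h02]; norm_num)
  -- w = b / 2 + 3 d / 4
  have kw := ker hM hd 5 1 3 (1 / 2) (3 / 4) (by rw [h51, h53, h13]; norm_num)
  -- u = 4 b / 5 + 2 z / 5
  have ku := ker hM hd 7 1 6 (4 / 5) (2 / 5) (by rw [h71, h76, h16]; norm_num)
  have t1 := kw 4
  have t2 := kv 1
  have t3 := kv 3
  have t4 := ku 0
  rw [h45, symm_of hM 1 4, t2, symm_of hM 3 4, t3, symm_of hM 0 1, h12, symm_of hM 0 3, h03,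
    symm_of hM 2 3] at t1
  rw [h07] at t4
  have f1 := q3 hM hd 6 0 8 (M 0 6) (1 / 2)
  rw [symm_of hM 0 6, symm_of hM 8 6, h86, symm_of hM 8 0, h80] at f1
  have hy2 : M 2 3 = 4 / 3 * M 0 1 - 1 / 3 := by linarith
  have hz : M 0 6 = 2 - 2 * M 0 1 := by linarith
  set Y : ℝ := 1 - M 0 1 with hY
  have hy1 : M 0 1 = 1 - Y := by rw [hY]; ring
  have g1 := q4 hM hd 0 1 2 3 1 (-1)
  have g2 := q4 hM hd 0 1 2 3 (8 / 3 * Y) (-1)
  rw [h02, h03, h12, h13, hy2, hy1] at g1 g2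
  rw [hz, hy1] at f1
  have hpos : 0 < Y := by nlinarith
  have hup : Y ^ 2 ≤ 3 / 16 := by nlinarith
  have hlow : 3 / 16 ≤ Y ^ 2 := by
    have h1 : 0 ≤ Y * (Y ^ 2 - 3 / 16) := by nlinarith
    have h2 := nonneg_of_mul_nonneg_right h1 hpos
    linarith
  have hs : (Real.sqrt 3) ^ 2 = 3 := Real.sq_sqrt (by norm_num)
  have hs0 := Real.sqrt_nonneg 3
  have h3 : (Y - Real.sqrt 3 / 4) * (Y + Real.sqrt 3 / 4) = 0 := by nlinarith
  have h4 : Y + Real.sqrt 3 / 4 ≠ 0 := by positivity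
  have h5 := (mul_eq_zero.1 h3).resolve_right h4
  linarith


/-- there is no rational completion -/
theorem no_rational : ¬ ∃ Y : Matrix (Fin 9) (Fin 9) ℚ,
    (Y.map (fun q : ℚ => (q : ℝ))).PosSemidef ∧ (∀ i, (Y.map (fun q : ℚ => (q : ℝ))) i i = 1) ∧
    ∀ i j, G.Adj i j → (Y.map (fun q : ℚ => (q : ℝ))) i j = (x s(i, j) : ℝ) := by
  rintro ⟨Y, h1, h2, h3⟩
  have h := forced h1 h2 h3
  rw [Matrix.map_apply] at h
  have h5 : Irrational (Real.sqrt 3) := by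
    have := Nat.Prime.irrational_sqrt (p := 3) (by norm_num)
    simpa using this
  exact h5 ⟨4 * (1 - Y 0 1), by push_cast; linarith⟩

end Pool.Agent.H7.Ell.Irr
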