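import Pool.Agent.H7.Ell.Avg

/-!
# The walk argument
-/

set_option autoImplicit false

open Polynomial IntermediateField Module Matrix

namespace Pool.Agent.H7.Ell

/-- all conjugates have modulus one, and denominators are controlled by `N` -/
def Good (S : Finset ℚ) (z : ℂ) (N : ℕ) : Prop :=
  ∃ y : LL S, (y : ℂ) = z ∧ (∀ σ : LL S ≃ₐ[ℚ] LL S, ‖((σ y : LL S) : ℂ)‖ = 1) ∧
    IsIntegral ℤ ((N : LL S) * y) ∧ IsIntegral ℤ ((N : LL S) * y⁻¹)

theorem Good.one (S : Finset ℚ) : Good S 1 1 :=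
  ⟨1, rfl, fun σ => by simp, by simpa using isIntegral_one, by simpa using isIntegral_one⟩

theorem Good.mul {S : Finset ℚ} {z z' : ℂ} {N N' : ℕ} (h : Good S z N) (h' : Good S z' N') :
    Good S (z * z') (N * N') := by
  obtain ⟨y, rfl, h1, h2, h3⟩ := h
  obtain ⟨y', rfl, h1', h2', h3'⟩ := h'
  refine ⟨y * y', rfl, fun σ => ?_, ?_, ?_⟩
  · rw [map_mul]
    show ‖((σ y : LL S) : ℂ) * ((σ y' : LL S) : ℂ)‖ = 1
    rw [norm_mul, h1, h1', one_mul]
  · have : (((N * N' : ℕ) : LL S)) * (y * y') = ((N : LL S) * y) * ((N' : LL S) * y') := by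
      push_cast
      ring
    rw [this]
    exact h2.mul h2'
  · have : (((N * N' : ℕ) : LL S)) * (y * y')⁻¹ = ((N : LL S) * y⁻¹) * ((N' : LL S) * y'⁻¹) := by
      push_cast
      rw [mul_inv]
      ring
    rw [this]
    exact h3.mul h3'

theorem Good.mono {S : Finset ℚ} {z : ℂ} {N M : ℕ} (h : Good S z N) (hd : N ∣ M) :
    Good S z M := by
  obtain ⟨y, rfl, h1, h2, h3⟩ := h
  obtain ⟨k, rfl⟩ := hd
  have hk : IsIntegral ℤ (k : LL S) := by
    have := (isIntegral_algebraMap (R := ℤ) (A := LL S) (x := (k : ℤ)))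
    simpa using this
  refine ⟨y, rfl, h1, ?_, ?_⟩
  · have : (((N * k : ℕ) : LL S)) * y = (k : LL S) * ((N : LL S) * y) := by
      push_cast
      ring
    rw [this]
    exact hk.mul h2
  · have : (((N * k : ℕ) : LL S)) * y⁻¹ = (k : LL S) * ((N : LL S) * y⁻¹) := by
      push_cast
      ring
    rw [this]
    exact hk.mul h3

theorem Good.root {S : Finset ℚ} {x : ℚ} (hx : x ∈ S) {z : ℂ} (hz : ‖z‖ = 1)
    (hre : z.re = (x : ℝ)) : Good S z x.den := by
  have h0 : z ≠ 0 := by
    rintro rfl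
    simp at hz
  have hq : aeval z (qp x) = 0 := by
    rw [qp_aeval]
    have h1 : z * (starRingEnd ℂ) z = 1 := by
      rw [Complex.mul_conj, Complex.normSq_eq_norm_sq, hz]
      simp
    have h2 : z + (starRingEnd ℂ) z = 2 * algebraMap ℚ ℂ x := by
      rw [Complex.add_conj, hre]
      simp
    linear_combination z * h2 - h1
  have hm : z ∈ LL S := mem_LL hx hq
  set y : LL S := ⟨z, hm⟩ with hy
  have hyq : aeval y (qp x) = 0 := by
    apply Subtype.ext
    have := aeval_algHom_apply (LL S).val y (qp x)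
    exact this.symm.trans hq
  have hxa : |(x : ℝ)| ≤ 1 := by
    rw [← hre, ← hz]
    exact Complex.abs_re_le_norm z
  refine ⟨y, rfl, fun σ => ?_, int_of_root hyq, int_of_root (root_inv hyq).2⟩
  have h3 : aeval (σ y) (qp x) = 0 := by
    rw [aeval_algHom_apply σ, hyq, map_zero]
  have h4 : aeval ((σ y : LL S) : ℂ) (qp x) = 0 := by
    have := aeval_algHom_apply (LL S).val (σ y) (qp x)
    rw [h3, map_zero] at this
    exact this
  rw [qp_aeval] at h4
  apply root_norm hxa
  simpa using h4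


variable {V : Type} (G : SimpleGraph V) (x : Sym2 V → ℚ) (c : V → ℂ)

theorem walk_good {S : Finset ℚ} (hS : ∀ e ∈ G.edgeSet, x e ∈ S) (hc : ∀ i, ‖c i‖ = 1)
    (he : ∀ i j, G.Adj i j → (c i * (starRingEnd ℂ) (c j)).re = (x s(i, j) : ℝ))
    {i j : V} (p : G.Walk i j) :
    Good S (c i / c j) ((p.edges.map fun e => (x e).den).prod) := by
  have h0 : ∀ i, c i ≠ 0 := fun i h => by
    have := hc i
    rw [h] at this
    simp at this
  induction p with
  | nil =>
    rw [div_self (h0 _)]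
    simpa using Good.one S
  | @cons a b d hab p ih =>
    have h1 : c a / c d = (c a / c b) * (c b / c d) := by
      field_simp [h0 b, h0 d]
    rw [h1, SimpleGraph.Walk.edges_cons, List.map_cons, List.prod_cons]
    refine Good.mul (Good.root (hS _ ((SimpleGraph.mem_edgeSet G).2 hab)) ?_ ?_) ih
    · rw [norm_div, hc, hc, div_one]
    · rw [div_eq_mul_inv, ← conj_eq_inv (hc b)]
      exact he a b hab

theorem reach_good [Fintype V] [DecidableEq V] [DecidableRel G.Adj] {S : Finset ℚ} (hS : ∀ e ∈ G.edgeSet, x e ∈ S) (hc : ∀ i, ‖c i‖ = 1)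
    (he : ∀ i j, G.Adj i j → (c i * (starRingEnd ℂ) (c j)).re = (x s(i, j) : ℝ))
    {i j : V} (h : G.Reachable i j) :
    Good S (c i / c j) (∏ e ∈ G.edgeFinset, (x e).den) := by
  obtain ⟨p⟩ := h
  have hp := (p.toPath).2
  refine (walk_good G x c hS hc he (p.toPath : G.Walk i j)).mono ?_
  rw [← List.prod_toFinset _ hp.isTrail.edges_nodup]
  apply Finset.prod_dvd_prod_of_subset
  intro e hE
  rw [List.mem_toFinset] at hE
  exact SimpleGraph.mem_edgeFinset.2 (SimpleGraph.Walk.edges_subset_edgeSet _ hE)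

theorem main [Fintype V] [DecidableEq V] [DecidableRel G.Adj] (hc : ∀ i, ‖c i‖ = 1)
    (he : ∀ i j, G.Adj i j → (c i * (starRingEnd ℂ) (c j)).re = (x s(i, j) : ℝ)) :
    ∃ Y : Matrix V V ℚ, (Y.map (fun q : ℚ => (q : ℝ))).PosSemidef ∧ (∀ i, Y i i = 1) ∧
      (∀ i j, G.Adj i j → Y i j = x s(i, j)) ∧
      ∃ D : ℕ, 0 < D ∧ D ≤ 2 ^ (G.edgeFinset.card + 1) * (∏ e ∈ G.edgeFinset, (x e).den) ^ 2 ∧
        ∀ i j, ∃ k : ℤ, (D : ℚ) * Y i j = k := by
  classical
  set S : Finset ℚ := G.edgeFinset.image x with hSdef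
  have hS : ∀ e ∈ G.edgeSet, x e ∈ S := fun e h =>
    Finset.mem_image_of_mem _ (SimpleGraph.mem_edgeFinset.2 h)
  have h0 : ∀ i, c i ≠ 0 := fun i h => by
    have := hc i
    rw [h] at this
    simp at this
  set rep : V → V := fun i => Quot.out (G.connectedComponentMk i) with hrep
  have hrep1 : ∀ i, G.Reachable i (rep i) := fun i =>
    (SimpleGraph.ConnectedComponent.exact (Quot.out_eq (G.connectedComponentMk i))).symm
  have hrep2 : ∀ i j, G.Adj i j → rep i = rep j := fun i j h => by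
    have : G.connectedComponentMk i = G.connectedComponentMk j :=
      SimpleGraph.ConnectedComponent.sound h.reachable
    rw [hrep]
    simp only [this]
  have hg := fun i => reach_good G x c hS hc he (hrep1 i)
  choose w hw1 hw2 hw3 hw4 using hg
  obtain ⟨hfd, hle⟩ := LL_fd S
  have := hfd
  have : IsGalois ℚ (LL S) := IsGalois.mk
  set N : ℕ := ∏ e ∈ G.edgeFinset, (x e).den with hN
  have hNpos : 0 < N := Finset.prod_pos fun e _ => (x e).den_pos
  refine ⟨YY w, YY_psd (LL S).val.toRingHom w (fun σ i => hw2 i σ), fun i => ?_, fun i j h => ?_,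
    2 * finrank ℚ (LL S) * N ^ 2, ?_, ?_, YY_den w N hw3 hw4⟩
  · apply YY_diag
    intro h
    have := hw1 i
    rw [h] at this
    exact div_ne_zero (h0 i) (h0 (rep i)) this.symm
  · apply YY_edge
    apply (LL S).val.injective
    have h1 : ((w i : LL S) : ℂ) * ((w j : LL S) : ℂ)⁻¹ = c i * (starRingEnd ℂ) (c j) := by
      rw [hw1, hw1, hrep2 i j h, conj_eq_inv (hc j)]
      have := h0 (rep j)
      have := h0 j
      field_simp
    have h2 : ((w j : LL S) : ℂ) * ((w i : LL S) : ℂ)⁻¹ = c j * (starRingEnd ℂ) (c i) := by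
      rw [hw1, hw1, hrep2 i j h, conj_eq_inv (hc i)]
      have := h0 (rep j)
      have := h0 i
      field_simp
    have h3 : (LL S).val (XX w i j) = (((w i : LL S) : ℂ) * ((w j : LL S) : ℂ)⁻¹ +
        ((w j : LL S) : ℂ) * ((w i : LL S) : ℂ)⁻¹) / 2 := by
      unfold XX
      simp only [map_div₀, map_add, map_mul, map_inv₀, map_ofNat]
      rfl
    show (LL S).val (XX w i j) = (LL S).val (algebraMap ℚ (LL S) (x s(i, j)))
    rw [h3, h1, h2]
    have h4 : c j * (starRingEnd ℂ) (c i) = (starRingEnd ℂ) (c i * (starRingEnd ℂ) (c j)) := by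
      simp [mul_comm]
    rw [h4, Complex.add_conj, he i j h]
    simp
  · have := finrank_pos (R := ℚ) (M := LL S)
    positivity
  · have h1 : S.card ≤ G.edgeFinset.card := Finset.card_image_le
    have h2 : finrank ℚ (LL S) ≤ 2 ^ G.edgeFinset.card :=
      hle.trans (Nat.pow_le_pow_right (by norm_num) h1)
    calc 2 * finrank ℚ (LL S) * N ^ 2 ≤ 2 * 2 ^ G.edgeFinset.card * N ^ 2 := by gcongr
      _ = 2 ^ (G.edgeFinset.card + 1) * N ^ 2 := by ring

end Pool.Agent.H7.Ell
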