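import Pool.Agent.H7.Ell.Irr

/-!
# The example is realised in three-dimensional space
-/

set_option autoImplicit false

open Matrix

namespace Pool.Agent.H7.Ell.Irr

theorem Dm_nonneg (s : ℝ) (h0 : 0 ≤ s) (h2 : s ≤ 2) : ∀ k, 0 ≤ Dm s k := by
  intro k
  fin_cases k
  · show (0 : ℝ) ≤ (1/2) * s
    linarith
  · show (0 : ℝ) ≤ (4) + (-1/2) * s
    linarith
  · show (0 : ℝ) ≤ (4) + (-2/3) * s
    linarith
  · show (0 : ℝ) ≤ (1339/244) + (-494/183) * s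
    linarith

theorem cross_edge (s : ℝ) :
    ∀ t ∈ L, Cm s t.1 2 * Cm s t.2.1 3 + Cm s t.1 3 * Cm s t.2.1 2 = 0 := by
  intro t ht
  simp only [L, List.mem_cons, List.mem_nil_iff, or_false] at ht
  rcases ht with rfl | rfl | rfl | rfl | rfl | rfl | rfl | rfl | rfl | rfl | rfl | rfl | rfl |
    rfl | rfl
  all_goals simp [Cm]

theorem cross_diag (s : ℝ) (i : Fin 9) : Cm s i 2 * Cm s i 3 + Cm s i 3 * Cm s i 2 = 0 := by
  fin_cases i
  all_goals simp [Cm]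

/-- unit vectors of three-dimensional space -/
noncomputable def uu (s : ℝ) (i : Fin 9) : EuclideanSpace ℝ (Fin 3) :=
  !₂[Cm s i 0 * √(Dm s 0), Cm s i 1 * √(Dm s 1), Cm s i 2 * √(Dm s 2) + Cm s i 3 * √(Dm s 3)]

theorem inner_uu (s : ℝ) (h0 : 0 ≤ s) (h2 : s ≤ 2) (i j : Fin 9) :
    inner ℝ (uu s i) (uu s j) = X s i j +
      √(Dm s 2) * √(Dm s 3) * (Cm s i 2 * Cm s j 3 + Cm s i 3 * Cm s j 2) := by
  have d0 := Real.mul_self_sqrt (Dm_nonneg s h0 h2 0)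
  have d1 := Real.mul_self_sqrt (Dm_nonneg s h0 h2 1)
  have d2 := Real.mul_self_sqrt (Dm_nonneg s h0 h2 2)
  have d3 := Real.mul_self_sqrt (Dm_nonneg s h0 h2 3)
  have h : inner ℝ (uu s i) (uu s j) =
      (Cm s j 0 * √(Dm s 0)) * (Cm s i 0 * √(Dm s 0)) +
      (Cm s j 1 * √(Dm s 1)) * (Cm s i 1 * √(Dm s 1)) +
      (Cm s j 2 * √(Dm s 2) + Cm s j 3 * √(Dm s 3)) *
        (Cm s i 2 * √(Dm s 2) + Cm s i 3 * √(Dm s 3)) := by
    rw [PiLp.inner_apply, Fin.sum_univ_three]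
    rfl
  rw [h, X_apply]
  linear_combination (Cm s i 0 * Cm s j 0) * d0 + (Cm s i 1 * Cm s j 1) * d1 +
    (Cm s i 2 * Cm s j 2) * d2 + (Cm s i 3 * Cm s j 3) * d3

/-- the example is realised by unit vectors of three-dimensional space -/
theorem realised : ∃ u : Fin 9 → EuclideanSpace ℝ (Fin 3), (∀ i, ‖u i‖ = 1) ∧
    ∀ i j, G.Adj i j → inner ℝ (u i) (u j) = (x s(i, j) : ℝ) := by
  have hs : (Real.sqrt 3) ^ 2 = 3 := Real.sq_sqrt (by norm_num)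
  have h0 := Real.sqrt_nonneg 3
  have h2 : Real.sqrt 3 ≤ 2 := by nlinarith
  refine ⟨uu (Real.sqrt 3), fun i => ?_, fun i j h => ?_⟩
  · have h1 : ‖uu (Real.sqrt 3) i‖ ^ 2 = 1 := by
      rw [← real_inner_self_eq_norm_sq, inner_uu _ h0 h2, cross_diag, X_diag _ hs]
      ring
    have h3 := norm_nonneg (uu (Real.sqrt 3) i)
    nlinarith
  · obtain ⟨t, ht, ⟨rfl, rfl⟩ | ⟨rfl, rfl⟩⟩ := adj_L h
    · rw [inner_uu _ h0 h2, cross_edge _ t ht, X_edge _ hs t ht, x_val t ht]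
      ring
    · rw [real_inner_comm, inner_uu _ h0 h2, cross_edge _ t ht, X_edge _ hs t ht, Sym2.eq_swap,
        x_val t ht]
      ring

end Pool.Agent.H7.Ell.Irr
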